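import Pool.Agent.N798.S.Stm
import Pool.Agent.H221R2.FB_VdcGen

/-!
S/VD: derivative test of order `q + 1` for exponential sums
(adapted from `Pool/Agent/H221R2/FB_VdcGen.lean`).
-/

set_option autoImplicit false
set_option linter.unusedVariables false

namespace Pool.Agent.N701.S

open Finset
open Pool.Agent.H469R2.NK (e norm_e norm_sum_neg Av Av_le Cq Cq_pos iterate harm_le
  kusmin_landau_anti kusmin_landau_mono)
open Pool.Agent.H221R2.FB (EG SG SG_sq)
open Pool.Agent.H376R2.MR (er)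

section

variable {k : ℕ} {a b : ℝ} {φ : ℕ → ℝ → ℝ}

lemma EG_deriv (h : ∀ m < k, ∀ x ∈ Set.Icc a b, HasDerivAt (φ m) (φ (m + 1) x) x) (ls : List ℕ)
    {m : ℕ} (hm : m < k) {x : ℝ} (hx : a ≤ x) (hx2 : x + (ls.sum : ℕ) ≤ b) :
    HasDerivAt (EG φ ls m) (EG φ ls (m + 1) x) x := by
  induction ls generalizing x with
  | nil => exact h m hm x ⟨hx, by simpa using hx2⟩
  | cons l ls ih =>
    rw [List.sum_cons, Nat.cast_add] at hx2
    have hl : (0 : ℝ) ≤ l := Nat.cast_nonneg l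
    have h1 : HasDerivAt (fun y => EG φ ls m (y + l)) (EG φ ls (m + 1) (x + l)) x := by
      have := ih (x := x + l) (by linarith) (by linarith)
      exact this.comp_add_const x (l : ℝ)
    exact h1.sub (ih hx (by linarith))

/-- iterated differences are values of the derivative -/
lemma EG_eq (h : ∀ m < k, ∀ x ∈ Set.Icc a b, HasDerivAt (φ m) (φ (m + 1) x) x) (ls : List ℕ) :
    ∀ (m : ℕ) (x : ℝ), m + ls.length = k → a ≤ x → x + (ls.sum : ℕ) ≤ b →
      ∃ ξ ∈ Set.Icc a b, EG φ ls m x = (ls.prod : ℕ) * φ k ξ := by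
  induction ls with
  | nil =>
    intro m x h1 hx hx2
    simp only [List.length_nil, add_zero, List.sum_nil, Nat.cast_zero] at h1 hx2
    exact ⟨x, ⟨hx, hx2⟩, by simp [EG, h1]⟩
  | cons l ls ih =>
    intro m x h1 hx hx2
    simp only [List.length_cons, List.sum_cons] at h1 hx2
    rw [Nat.cast_add] at hx2
    have hs : (0 : ℝ) ≤ (ls.sum : ℕ) := Nat.cast_nonneg _
    have hl0 : (0 : ℝ) ≤ l := Nat.cast_nonneg l
    rcases Nat.eq_zero_or_pos l with rfl | hl
    · refine ⟨x, ⟨hx, by linarith⟩, ?_⟩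
      simp [EG]
    have hl' : (0 : ℝ) < l := by exact_mod_cast hl
    obtain ⟨ξ, hξ, hξ2⟩ := exists_hasDerivAt_eq_slope (EG φ ls m) (EG φ ls (m + 1)) (a := x)
      (b := x + l) (by linarith)
      (fun y hy => (EG_deriv h ls (by omega) (by linarith [hy.1])
        (by linarith [hy.2])).continuousAt.continuousWithinAt)
      (fun y hy => EG_deriv h ls (by omega) (by linarith [hy.1]) (by linarith [hy.2]))
    have h3 : EG φ (l :: ls) m x = l * EG φ ls (m + 1) ξ := by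
      simp only [EG]
      rw [hξ2, add_sub_cancel_left]
      field_simp
    obtain ⟨ζ, hζ, hζ2⟩ := ih (m + 1) ξ (by omega) (by linarith [hξ.1]) (by linarith [hξ.2])
    refine ⟨ζ, hζ, ?_⟩
    rw [h3, hζ2, List.prod_cons, Nat.cast_mul]
    ring

end

section

variable {q N L : ℕ} {u c0 C0 σ2 Z : ℝ} {φ : ℕ → ℝ → ℝ}

/-- last step: Kusmin–Landau -/
lemma SG_KL (hN : 1 ≤ N) (hc0 : 0 < c0) (hσ2 : |σ2| = 1)
    (hder : ∀ m ≤ q + 1, ∀ x ∈ Set.Icc u (u + L), HasDerivAt (φ m) (φ (m + 1) x) x)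
    (hb : ∀ x ∈ Set.Icc u (u + L), c0 ≤ φ (q + 1) x * (N : ℝ) ^ (q + 1) ∧
      φ (q + 1) x * (N : ℝ) ^ (q + 1) ≤ C0 ∧ 0 ≤ σ2 * φ (q + 2) x)
    (hZ : 0 < Z) (ls : List ℕ) (hls : 0 < ls.prod) (hlen : ls.length = q)
    (hup : Z * (C0 / (N : ℝ) ^ (q + 1) * (ls.prod : ℕ)) ≤ 1 / 2) :
    ‖SG φ Z u L ls‖ ≤ 2 * (N : ℝ) ^ (q + 1) / (Z * c0 * (ls.prod : ℕ)) := by
  have hN' : (0 : ℝ) < N := by exact_mod_cast hN
  have hNq : (0 : ℝ) < (N : ℝ) ^ (q + 1) := by positivity
  have hP : (0 : ℝ) < (ls.prod : ℕ) := by exact_mod_cast hls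
  rcases Nat.lt_or_ge L (ls.sum + 1) with hL | hL
  · unfold SG
    rw [show L - ls.sum = 0 by omega]
    simp only [range_zero, sum_empty, norm_zero]
    positivity
  set θ : ℝ := Z * (c0 / (N : ℝ) ^ (q + 1) * (ls.prod : ℕ)) with hθ
  have hθ0 : 0 < θ := by positivity
  have hx1 : ∀ n < L - ls.sum, θ ≤ Z * EG φ (1 :: ls) 0 (u + (n : ℝ)) ∧
      Z * EG φ (1 :: ls) 0 (u + (n : ℝ)) ≤ 1 / 2 := by
    intro n hn
    have hn0 : (0 : ℝ) ≤ n := Nat.cast_nonneg n
    have h3 : n + (1 + ls.sum) ≤ L := by omega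
    have h4 : ((n + (1 + ls.sum) : ℕ) : ℝ) ≤ L := by exact_mod_cast h3
    obtain ⟨ξ, hξ, hξ2⟩ := EG_eq (k := q + 1) (fun m hm => hder m hm.le) (1 :: ls) 0
      (u + (n : ℝ)) (by rw [List.length_cons, hlen]; ring) (by linarith) (by
        rw [List.sum_cons]
        push_cast at h4 ⊢
        linarith)
    rw [List.prod_cons, one_mul] at hξ2
    obtain ⟨h5, h6, -⟩ := hb ξ hξ
    rw [hξ2]
    constructor
    · rw [hθ]
      refine mul_le_mul_of_nonneg_left ?_ hZ.le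
      rw [mul_comm ((ls.prod : ℕ) : ℝ)]
      refine mul_le_mul_of_nonneg_right ?_ hP.le
      rw [div_le_iff₀ hNq]
      exact h5
    · refine le_trans ?_ hup
      refine mul_le_mul_of_nonneg_left ?_ hZ.le
      rw [mul_comm ((ls.prod : ℕ) : ℝ)]
      refine mul_le_mul_of_nonneg_right ?_ hP.le
      rw [le_div_iff₀ hNq]
      exact h6
  have hθ2 : θ ≤ 1 / 2 := (hx1 0 (by omega)).1.trans (hx1 0 (by omega)).2
  have hdiff : ∀ n : ℕ, Z * EG φ ls 0 (u + ((n + 1 : ℕ) : ℝ)) -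
      Z * EG φ ls 0 (u + (n : ℝ)) = Z * EG φ (1 :: ls) 0 (u + (n : ℝ)) := by
    intro n
    simp only [EG]
    push_cast
    rw [show u + n + 1 = u + (n + 1) by ring]
    ring
  have hdiff2 : ∀ n, n + 1 < L - ls.sum → 0 ≤ σ2 * (Z * EG φ (1 :: ls) 0 (u + ((n + 1 : ℕ) : ℝ)) -
      Z * EG φ (1 :: ls) 0 (u + (n : ℝ))) := by
    intro n hn
    have hn0 : (0 : ℝ) ≤ n := Nat.cast_nonneg n
    have h3 : n + (1 + (1 + ls.sum)) ≤ L := by omega
    have h4 : ((n + (1 + (1 + ls.sum)) : ℕ) : ℝ) ≤ L := by exact_mod_cast h3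
    obtain ⟨ξ, hξ, hξ2⟩ := EG_eq (k := q + 2) (fun m hm => hder m (by omega)) (1 :: 1 :: ls) 0
      (u + (n : ℝ)) (by rw [List.length_cons, List.length_cons, hlen]; ring) (by linarith) (by
        rw [List.sum_cons, List.sum_cons]
        push_cast at h4 ⊢
        linarith)
    rw [List.prod_cons, List.prod_cons, one_mul, one_mul] at hξ2
    have h5 := (hb ξ hξ).2.2
    have h2 : EG φ (1 :: 1 :: ls) 0 (u + (n : ℝ)) =
        EG φ (1 :: ls) 0 (u + ((n + 1 : ℕ) : ℝ)) - EG φ (1 :: ls) 0 (u + (n : ℝ)) := by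
      conv_lhs => rw [EG]
      push_cast
      rw [show u + n + 1 = u + (n + 1) by ring]
    rw [← mul_sub, ← h2, hξ2]
    have e1 : σ2 * (Z * ((ls.prod : ℕ) * φ (q + 2) ξ)) =
        Z * (ls.prod : ℕ) * (σ2 * φ (q + 2) ξ) := by ring
    rw [e1]
    positivity
  have hKL : ‖∑ n ∈ range (L - ls.sum), e (Z * EG φ ls 0 (u + (n : ℝ)))‖ ≤ 2 / θ := by
    rcases (abs_eq (zero_le_one' ℝ)).1 hσ2 with hs | hs
    · exact kusmin_landau_mono (fun n => Z * EG φ ls 0 (u + (n : ℝ))) (L - ls.sum) hθ0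
        (fun n hn => by rw [hdiff]; exact (hx1 n hn).1)
        (fun n hn => by rw [hdiff]; linarith [(hx1 n hn).2])
        (fun n hn => by
          have e1 := hdiff n
          have e2 := hdiff (n + 1)
          rw [show n + 1 + 1 = n + 2 by ring] at e2
          have e3 := hdiff2 n hn
          rw [hs, one_mul] at e3
          linarith)
    · exact kusmin_landau_anti (fun n => Z * EG φ ls 0 (u + (n : ℝ))) (L - ls.sum) hθ0
        (fun n hn => by rw [hdiff]; exact (hx1 n hn).1)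
        (fun n hn => by rw [hdiff]; linarith [(hx1 n hn).2])
        (fun n hn => by
          have e1 := hdiff n
          have e2 := hdiff (n + 1)
          rw [show n + 1 + 1 = n + 2 by ring] at e2
          have e3 := hdiff2 n hn
          rw [hs] at e3
          linarith)
  unfold SG
  refine hKL.trans (le_of_eq ?_)
  rw [hθ]
  field_simp

lemma exp_bd (hN : 1 ≤ N) (hu : (N : ℝ) ≤ u) (huL : u + L ≤ 3 * N) (hc0 : 0 < c0) (hC0 : 0 ≤ C0)
    (hσ2 : |σ2| = 1)
    (hder : ∀ m ≤ q + 1, ∀ x ∈ Set.Icc u (u + L), HasDerivAt (φ m) (φ (m + 1) x) x)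
    (hb : ∀ x ∈ Set.Icc u (u + L), c0 ≤ φ (q + 1) x * (N : ℝ) ^ (q + 1) ∧
      φ (q + 1) x * (N : ℝ) ^ (q + 1) ≤ C0 ∧ 0 ≤ σ2 * φ (q + 2) x)
    (hZ : 0 < Z) (H : ℕ) (hH : 1 ≤ H) (hHN : H ≤ N)
    (hup : Z * (C0 / (N : ℝ) ^ (q + 1) * (H : ℝ) ^ q) ≤ 1 / 2) :
    (‖SG φ Z u L []‖ / (2 * N)) ^ (2 ^ q) ≤ Cq q * (1 / H +
      ((N : ℝ) ^ q / (Z * c0)) * ((∑ l ∈ Ico 1 H, (1 : ℝ) / l) / H) ^ q) := by
  have hN' : (1 : ℝ) ≤ N := by exact_mod_cast hN
  have hN0 : (0 : ℝ) < N := by linarith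
  have hH' : (1 : ℝ) ≤ H := by exact_mod_cast hH
  have hL' : (L : ℝ) ≤ 2 * N := by linarith
  have hHN' : (H : ℝ) ≤ N := by exact_mod_cast hHN
  obtain ⟨M, hM⟩ : ∃ M : ℝ, M = 2 * N := ⟨_, rfl⟩
  have hM0 : 0 < M := by rw [hM]; linarith
  rw [← hM]
  have hstep : ∀ ls : List ℕ, (‖SG φ Z u L ls‖ / M) ^ 2 ≤
      2 / H + 4 * ((∑ l ∈ Ico 1 H, ‖SG φ Z u L (l :: ls)‖ / M) / H) := by
    intro ls
    have h := SG_sq φ Z u L H ls
    set Sg := ∑ l ∈ Ico 1 H, ‖SG φ Z u L (l :: ls)‖ with hSg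
    have hSg0 : 0 ≤ Sg := sum_nonneg fun _ _ => norm_nonneg _
    have h2 : (H : ℝ) * ‖SG φ Z u L ls‖ ^ 2 ≤ (2 * M) * (M + 2 * Sg) := by
      refine h.trans ?_
      have h3 : (L : ℝ) + H ≤ 2 * M := by rw [hM]; linarith
      have h4 : (L : ℝ) ≤ M := by rw [hM]; linarith
      gcongr
    rw [← sum_div, ← hSg]
    have e1 : 2 / (H : ℝ) + 4 * (Sg / M / H) = ((2 * M) * (M + 2 * Sg)) / (H * M ^ 2) := by
      field_simp
      ring
    rw [e1, div_pow, div_le_div_iff₀ (by positivity) (by positivity)]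
    calc ‖SG φ Z u L ls‖ ^ 2 * (H * M ^ 2) = ((H : ℝ) * ‖SG φ Z u L ls‖ ^ 2) * M ^ 2 := by ring
      _ ≤ _ := by gcongr
  have hit := iterate hH (fun ls => ‖SG φ Z u L ls‖ / M) (fun ls => by positivity) hstep q []
  refine hit.trans ?_
  have hC := Cq_pos q
  gcongr
  have := Av_le (H := H) (T := fun ls => ‖SG φ Z u L ls‖ / M)
    (κ := (N : ℝ) ^ q / (Z * c0)) q (by
      intro ls hlen hent
      have hpos : 0 < ls.prod := List.prod_pos fun l hl => (hent l hl).1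
      have hle : ls.prod ≤ H ^ q := by
        have := List.prod_le_pow_card ls H (fun l hl => (hent l hl).2.le)
        rwa [hlen] at this
      have hle' : ((ls.prod : ℕ) : ℝ) ≤ (H : ℝ) ^ q := by exact_mod_cast hle
      have h1 := SG_KL hN hc0 hσ2 hder hb hZ ls hpos hlen (by
        refine le_trans ?_ hup
        gcongr)
      have hP : (0 : ℝ) < (ls.prod : ℕ) := by exact_mod_cast hpos
      calc ‖SG φ Z u L ls‖ / M ≤ (2 * (N : ℝ) ^ (q + 1) / (Z * c0 * (ls.prod : ℕ))) / M := by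
            gcongr
        _ = _ := by
            rw [hM, pow_succ]
            field_simp) q [] (by simp) (by simp)
  simpa using this

end

lemma er_eq (Z x : ℝ) : er Z x = e (Z / (2 * Real.pi) * x) := by
  unfold er e
  congr 3
  have := Real.pi_pos
  field_simp

theorem vd : Pool.Agent.N798.S.S_VD := by
  intro q
  obtain ⟨K, hK⟩ : ∃ K : ℝ, K = Cq q * (2 + 7 * 2 ^ q * (2 * q + 5) ^ q) := ⟨_, rfl⟩
  have hCq := Cq_pos q
  have hK0 : 0 < K := by rw [hK]; positivity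
  obtain ⟨T, hT⟩ : ∃ T : ℝ, T = K ^ ((1 : ℝ) / 2 ^ q) := ⟨_, rfl⟩
  have hT0 : 0 < T := by rw [hT]; positivity
  refine ⟨15 + 2 * T, by positivity, ?_⟩
  intro N L u Z c0 C0 σ1 σ2 φ hN hu huL hc0 hc1 hC0 hσ1 hσ2 hder hb
  have hN' : (1 : ℝ) ≤ N := by exact_mod_cast hN
  have hNpos : (0 : ℝ) < N := by linarith
  have hπ := Real.pi_pos
  have hπ2 := Real.pi_lt_d2
  have hπ3 := Real.pi_gt_three
  have h415 : 4 * Real.pi ≤ 15 + 2 * T := by
    norm_num at hπ2
    linarith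
  have hσσ : σ1 * σ1 = 1 := by
    rw [← abs_mul_abs_self, hσ1, one_mul]
  -- the phase with sign
  obtain ⟨ψ, hψ⟩ : ∃ ψ : ℕ → ℝ → ℝ, ψ = fun m x => σ1 * φ m x := ⟨_, rfl⟩
  have hψd : ∀ m ≤ q + 1, ∀ x ∈ Set.Icc u (u + L), HasDerivAt (ψ m) (ψ (m + 1) x) x := by
    intro m hm x hx
    rw [hψ]
    exact (hder m hm x hx).const_mul σ1
  have hσ' : |σ1 * σ2| = 1 := by rw [abs_mul, hσ1, hσ2, one_mul]
  have hψb : ∀ x ∈ Set.Icc u (u + L), c0 ≤ ψ (q + 1) x * (N : ℝ) ^ (q + 1) ∧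
      ψ (q + 1) x * (N : ℝ) ^ (q + 1) ≤ C0 ∧ 0 ≤ (σ1 * σ2) * ψ (q + 2) x := by
    intro x hx
    obtain ⟨h1, h2, h3⟩ := hb x hx
    rw [hψ]
    refine ⟨h1, h2, ?_⟩
    have e1 : σ1 * σ2 * (σ1 * φ (q + 2) x) = (σ1 * σ1) * (σ2 * φ (q + 2) x) := by ring
    show 0 ≤ σ1 * σ2 * (σ1 * φ (q + 2) x)
    rw [e1, hσσ, one_mul]
    exact h3
  obtain ⟨Z', hZ'⟩ : ∃ Z' : ℝ, Z' = Z / (2 * Real.pi) := ⟨_, rfl⟩
  have hsum : ‖∑ n ∈ range L, er Z (φ 0 (u + n))‖ = ‖SG ψ Z' u L []‖ := by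
    unfold SG
    simp only [List.sum_nil, Nat.sub_zero, er_eq, ← hZ']
    rcases (abs_eq (zero_le_one' ℝ)).1 hσ1 with hs | hs
    · congr 1
      refine sum_congr rfl fun n _ => ?_
      simp only [EG, hψ, hs, one_mul]
    · rw [← norm_sum_neg]
      congr 1
      refine sum_congr rfl fun n _ => ?_
      simp only [EG, hψ, hs]
      congr 1
      ring
  rw [hsum]
  have hL' : (L : ℝ) ≤ 2 * N := by linarith
  have htriv : ‖SG ψ Z' u L []‖ ≤ 2 * N := by
    unfold SG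
    refine (norm_sum_le _ _).trans ?_
    simp only [norm_e, sum_const, card_range, nsmul_eq_mul, mul_one, List.sum_nil, Nat.sub_zero]
    exact hL'
  refine ⟨?_, ?_⟩
  · intro hq hZ hZN
    subst hq
    have hZ0' : 0 < Z' := by rw [hZ']; positivity
    have h1 := SG_KL hN hc0 hσ' hψd hψb hZ0' [] (by simp) (by simp) (by
      simp only [zero_add, List.prod_nil, Nat.cast_one, mul_one, pow_one]
      rw [hZ', ← mul_div_assoc, div_le_iff₀ hNpos, div_mul_eq_mul_div, div_le_iff₀ (by positivity)]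
      nlinarith)
    simp only [zero_add, List.prod_nil, Nat.cast_one, mul_one, pow_one] at h1
    refine h1.trans ?_
    have e1 : 2 * (N : ℝ) / (Z' * c0) = (4 * Real.pi) * (N / (Z * c0)) := by
      rw [hZ']
      field_simp
      ring
    rw [e1, mul_div_assoc]
    exact mul_le_mul_of_nonneg_right h415 (by positivity)
  · intro hq hZ1 hZ2
    have hq' : (1 : ℝ) ≤ q := by exact_mod_cast hq
    have hqpos : (0 : ℝ) < q := by linarith
    obtain ⟨δ, hδ⟩ : ∃ δ : ℝ, δ = 1 / (((q : ℝ) + 2) * 2 ^ q) := ⟨_, rfl⟩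
    have h2q : (1 : ℝ) ≤ 2 ^ q := one_le_pow₀ (by norm_num)
    have hδ1 : δ ≤ 1 := by
      rw [hδ, div_le_one (by positivity)]
      nlinarith
    have hδ0 : 0 < δ := by rw [hδ]; positivity
    rw [← hδ]
    have hsqrt : 1 ≤ √(N : ℝ) := Real.one_le_sqrt.2 hN'
    have hZ : 0 < Z := by linarith
    have hZ0' : 0 < Z' := by rw [hZ']; positivity
    have hC0p : 0 < C0 := by linarith
    have hcc : 1 ≤ C0 / c0 := by
      rw [le_div_iff₀ hc0]
      linarith
    have hN1δ : 1 ≤ (N : ℝ) ^ (1 - δ) := Real.one_le_rpow hN' (by linarith)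
    rcases lt_or_ge (N : ℝ) C0 with hbig | hC0N
    · -- trivial bound
      refine htriv.trans ?_
      have h1 : C0 ≤ C0 / c0 := by
        rw [le_div_iff₀ hc0]
        nlinarith
      calc 2 * (N : ℝ) ≤ 2 * (C0 / c0) * 1 := by linarith
        _ ≤ (15 + 2 * T) * (C0 / c0) * (N : ℝ) ^ (1 - δ) := by
            gcongr
            linarith
    · -- Weyl - van der Corput
      obtain ⟨W, hW⟩ : ∃ W : ℝ, W = min ((N : ℝ) ^ q) ((N : ℝ) ^ (q + 1) / (C0 * Z)) := ⟨_, rfl⟩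
      have hNq : (1 : ℝ) ≤ (N : ℝ) ^ q := one_le_pow₀ hN'
      have hNC : N / C0 ≤ W := by
        rw [hW]
        refine le_min ?_ ?_
        · rw [div_le_iff₀ hC0p]
          have h1 : (N : ℝ) ≤ (N : ℝ) ^ q := le_self_pow₀ hN' (by omega)
          nlinarith
        · rw [div_le_div_iff₀ hC0p (by positivity), pow_succ]
          have h1 : Z * (N * C0) ≤ (N : ℝ) ^ q * (N * C0) :=
            mul_le_mul_of_nonneg_right hZ2 (by positivity)
          linarith
      have hW1 : 1 ≤ W := by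
        refine le_trans ?_ hNC
        rw [le_div_iff₀ hC0p]
        linarith
      have hW0 : 0 < W := by linarith
      have hWN : W ≤ (N : ℝ) ^ q := by rw [hW]; exact min_le_left _ _
      have hWZ : C0 * Z * W ≤ (N : ℝ) ^ (q + 1) := by
        have h1 : W ≤ (N : ℝ) ^ (q + 1) / (C0 * Z) := by rw [hW]; exact min_le_right _ _
        rw [le_div_iff₀ (by positivity)] at h1
        linarith
      obtain ⟨hh, hhd⟩ : ∃ hh : ℝ, hh = W ^ ((1 : ℝ) / q) := ⟨_, rfl⟩
      have hhQ : hh ^ q = W := by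
        rw [hhd, ← Real.rpow_natCast, ← Real.rpow_mul hW0.le,
          one_div_mul_cancel (by positivity), Real.rpow_one]
      have hh1 : 1 ≤ hh := by rw [hhd]; exact Real.one_le_rpow hW1 (by positivity)
      have hh0 : 0 < hh := by linarith
      have hhN : hh ≤ N := le_of_pow_le_pow_left₀ (n := q) (by omega) (by positivity)
        (by rw [hhQ]; exact hWN)
      obtain ⟨H, hH⟩ : ∃ H : ℕ, H = ⌊hh⌋₊ := ⟨_, rfl⟩
      have hH1 : 1 ≤ H := by rw [hH]; exact Nat.one_le_floor_iff _ |>.mpr hh1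
      have hHle : (H : ℝ) ≤ hh := by rw [hH]; exact Nat.floor_le hh0.le
      have hHN : H ≤ N := by exact_mod_cast hHle.trans hhN
      have hH1' : (1 : ℝ) ≤ H := by exact_mod_cast hH1
      have hHge : hh / 2 ≤ H := by
        have h1 : hh < H + 1 := by rw [hH]; exact Nat.lt_floor_add_one hh
        linarith
      have hHpos : (0 : ℝ) < H := by linarith
      have hcond : Z' * (C0 / (N : ℝ) ^ (q + 1) * (H : ℝ) ^ q) ≤ 1 / 2 := by
        have e2 : Z' * (C0 / (N : ℝ) ^ (q + 1) * (H : ℝ) ^ q) =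
            (C0 * Z * (H : ℝ) ^ q) / ((N : ℝ) ^ (q + 1) * (2 * Real.pi)) := by
          rw [hZ']
          field_simp
        have e3 : C0 * Z * (H : ℝ) ^ q ≤ (N : ℝ) ^ (q + 1) := by
          refine le_trans ?_ hWZ
          rw [← hhQ]
          gcongr
        have e4 : (0 : ℝ) < (N : ℝ) ^ (q + 1) := by positivity
        rw [e2, div_le_iff₀ (by positivity)]
        nlinarith
      have hb' := exp_bd hN hu huL hc0 hC0p.le hσ' hψd hψb hZ0' H hH1 hHN hcond
      -- the exponent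
      obtain ⟨κ, hκ⟩ : ∃ κ : ℝ, κ = 1 / ((q : ℝ) + 2) := ⟨_, rfl⟩
      have hκ0 : 0 < κ := by rw [hκ]; positivity
      have hκ1 : κ * (q + 2) = 1 := by rw [hκ]; field_simp
      have hNκ : 1 ≤ (N : ℝ) ^ κ := Real.one_le_rpow hN' hκ0.le
      -- first term
      have hhlow : (N : ℝ) ^ κ / C0 ≤ hh := by
        refine le_of_pow_le_pow_left₀ (n := q) (by omega) hh0.le ?_
        rw [hhQ, div_pow]
        refine le_trans ?_ hNC
        have h1 : ((N : ℝ) ^ κ) ^ q ≤ N := by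
          rw [← Real.rpow_natCast, ← Real.rpow_mul hNpos.le]
          calc (N : ℝ) ^ (κ * q) ≤ (N : ℝ) ^ (1 : ℝ) := by
                apply Real.rpow_le_rpow_of_exponent_le hN'
                nlinarith
            _ = N := Real.rpow_one _
        have h2 : C0 ≤ C0 ^ q := le_self_pow₀ hC0 (by omega)
        gcongr
      have hterm1 : 1 / (H : ℝ) ≤ 2 * C0 * (N : ℝ) ^ (-κ) := by
        rw [Real.rpow_neg hNpos.le, ← div_eq_mul_inv, div_le_div_iff₀ hHpos (by positivity)]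
        rw [div_le_iff₀ hC0p] at hhlow
        nlinarith
      have hlog : 1 + Real.log H ≤ (2 * q + 5) * (N : ℝ) ^ (κ / 2) := by
        have h1 : Real.log H ≤ Real.log N := Real.log_le_log (by positivity) (by exact_mod_cast hHN)
        have h2 := Real.log_le_rpow_div (x := N) (ε := κ / 2) (by positivity) (by positivity)
        have h3 : (N : ℝ) ^ (κ / 2) / (κ / 2) = (2 * q + 4) * (N : ℝ) ^ (κ / 2) := by
          rw [hκ]
          field_simp
          ring
        have h4 : (1 : ℝ) ≤ (N : ℝ) ^ (κ / 2) := Real.one_le_rpow hN' (by positivity)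
        rw [h3] at h2
        nlinarith
      have hterm2 : ((N : ℝ) ^ q / (Z' * c0)) * ((∑ l ∈ Ico 1 H, (1 : ℝ) / l) / H) ^ q ≤
          7 * 2 ^ q * (2 * q + 5) ^ q * (C0 / c0) * (N : ℝ) ^ (-κ) := by
        have hs0 : 0 ≤ ∑ l ∈ Ico 1 H, (1 : ℝ) / l := sum_nonneg fun _ _ => by positivity
        have h1 : ((∑ l ∈ Ico 1 H, (1 : ℝ) / l) / H) ^ q ≤
            (((2 * q + 5) * (N : ℝ) ^ (κ / 2)) / (hh / 2)) ^ q := by
          gcongr
          exact (harm_le H).trans hlog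
        have h2 : (((2 * (q : ℝ) + 5) * (N : ℝ) ^ (κ / 2)) / (hh / 2)) ^ q =
            2 ^ q * (2 * q + 5) ^ q * (N : ℝ) ^ (1 / 2 - κ) / W := by
          rw [div_pow, mul_pow, div_pow, div_div_eq_mul_div, hhQ]
          have h3 : ((N : ℝ) ^ (κ / 2)) ^ q = (N : ℝ) ^ (1 / 2 - κ) := by
            rw [← Real.rpow_natCast, ← Real.rpow_mul hNpos.le]
            congr 1
            linarith
          rw [h3]
          ring
        have h4 : (N : ℝ) ^ q * (N : ℝ) ^ (1 / 2 - κ) ≤ C0 * Z * W * (N : ℝ) ^ (-κ) := by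
          have e1 : (N : ℝ) ^ (1 / 2 - κ) = (N : ℝ) ^ (1 / 2 : ℝ) * (N : ℝ) ^ (-κ) := by
            rw [← Real.rpow_add hNpos]
            congr 1
          rw [e1, ← mul_assoc]
          refine mul_le_mul_of_nonneg_right ?_ (by positivity)
          rw [← Real.sqrt_eq_rpow]
          rcases min_choice ((N : ℝ) ^ q) ((N : ℝ) ^ (q + 1) / (C0 * Z)) with h | h
          · rw [hW, h]
            have h5 : √(N : ℝ) ≤ C0 * Z := by nlinarith
            have h6 := mul_le_mul_of_nonneg_right h5 (show (0 : ℝ) ≤ (N : ℝ) ^ q by positivity)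
            linarith
          · rw [hW, h, mul_div_cancel₀ _ (by positivity), pow_succ]
            have h5 : √(N : ℝ) ≤ N := by
              rw [Real.sqrt_le_left (by positivity)]
              nlinarith
            gcongr
        calc ((N : ℝ) ^ q / (Z' * c0)) * ((∑ l ∈ Ico 1 H, (1 : ℝ) / l) / H) ^ q
            ≤ ((N : ℝ) ^ q / (Z' * c0)) *
              (2 ^ q * (2 * q + 5) ^ q * (N : ℝ) ^ (1 / 2 - κ) / W) := by
              rw [← h2]
              gcongr
          _ = (2 * Real.pi) * (2 ^ q * (2 * q + 5) ^ q / c0) *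
              (((N : ℝ) ^ q * (N : ℝ) ^ (1 / 2 - κ)) / (Z * W)) := by
              rw [hZ']
              field_simp
          _ ≤ (2 * Real.pi) * (2 ^ q * (2 * q + 5) ^ q / c0) *
              ((C0 * Z * W * (N : ℝ) ^ (-κ)) / (Z * W)) := by
              gcongr
          _ = (2 * Real.pi) * (2 ^ q * (2 * q + 5) ^ q * (C0 / c0) * (N : ℝ) ^ (-κ)) := by
              field_simp
          _ ≤ 7 * (2 ^ q * (2 * q + 5) ^ q * (C0 / c0) * (N : ℝ) ^ (-κ)) := by
              gcongr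
              linarith
          _ = _ := by ring
      have hfin : (‖SG ψ Z' u L []‖ / (2 * N)) ^ (2 ^ q) ≤ K * (C0 / c0) * (N : ℝ) ^ (-κ) := by
        refine hb'.trans ?_
        have h1 : C0 ≤ C0 / c0 := by
          rw [le_div_iff₀ hc0]
          nlinarith
        calc _ ≤ Cq q * (2 * (C0 / c0) * (N : ℝ) ^ (-κ) +
              7 * 2 ^ q * (2 * q + 5) ^ q * (C0 / c0) * (N : ℝ) ^ (-κ)) := by
              gcongr
              refine hterm1.trans ?_
              gcongr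
          _ = _ := by rw [hK]; ring
      have hroot : ‖SG ψ Z' u L []‖ / (2 * N) ≤
          K ^ ((1 : ℝ) / 2 ^ q) * (C0 / c0) * (N : ℝ) ^ (-δ) := by
        have h1 : (‖SG ψ Z' u L []‖ / (2 * N)) =
            ((‖SG ψ Z' u L []‖ / (2 * N)) ^ (2 ^ q)) ^ ((1 : ℝ) / 2 ^ q) := by
          rw [← Real.rpow_natCast, ← Real.rpow_mul (by positivity)]
          push_cast
          rw [mul_one_div_cancel (by positivity), Real.rpow_one]
        rw [h1]
        calc _ ≤ (K * (C0 / c0) * (N : ℝ) ^ (-κ)) ^ ((1 : ℝ) / 2 ^ q) := by gcongr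
          _ = K ^ ((1 : ℝ) / 2 ^ q) * (C0 / c0) ^ ((1 : ℝ) / 2 ^ q) *
              (N : ℝ) ^ (-κ * (1 / 2 ^ q)) := by
              rw [Real.mul_rpow (by positivity) (by positivity),
                Real.mul_rpow hK0.le (by positivity), ← Real.rpow_mul (by positivity)]
          _ ≤ K ^ ((1 : ℝ) / 2 ^ q) * (C0 / c0) ^ (1 : ℝ) * (N : ℝ) ^ (-δ) := by
              have h5 : -κ * (1 / 2 ^ q) = -δ := by
                rw [hκ, hδ]
                field_simp
              rw [h5]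
              gcongr
              rw [div_le_one (by positivity)]
              exact h2q
          _ = _ := by rw [Real.rpow_one]
      rw [div_le_iff₀ (by positivity)] at hroot
      have hNδ : (N : ℝ) ^ (-δ) * N = (N : ℝ) ^ (1 - δ) := by
        rw [sub_eq_neg_add, Real.rpow_add hNpos, Real.rpow_one]
      rw [← hT] at hroot
      calc ‖SG ψ Z' u L []‖ ≤ T * (C0 / c0) * (N : ℝ) ^ (-δ) * (2 * N) := hroot
        _ = 2 * T * (C0 / c0) * ((N : ℝ) ^ (-δ) * N) := by ring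
        _ = 2 * T * (C0 / c0) * (N : ℝ) ^ (1 - δ) := by rw [hNδ]
        _ ≤ _ := by
            gcongr
            linarith

end Pool.Agent.N701.S
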